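import Pool.Agent.H75.PRL.S5
import Pool.Agent.H15.AVS.TRV
import Pool.Agent.H15.AV3B.WCT

/-!
# The Poonen-Rains law, module CBP: the conditions modulo `P`
-/

set_option autoImplicit false

namespace Pool.PRL

open Polynomial Matrix Pool.AVR Pool.AVS Pool.RZ

namespace CBP

/-- Counting over the fibres. -/
lemma count {k : Type} [CommRing k] [Finite k] (T : k × k × k → Prop)
    (W : Matrix (Fin 3) (Fin 3) k → Prop) (c : ℕ)
    (h : ∀ t : k × k × k, T t → 2 * {B : Matrix (Fin 3) (Fin 3) k |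
      B ∈ Fb t.1 t.2.1 t.2.2 ∧ W B}.ncard ≤ c) :
    2 * {B : Matrix (Fin 3) (Fin 3) k | Bᵀ = B ∧ T (ia B, ib B, ic B) ∧ W B}.ncard ≤
      c * {t : k × k × k | T t}.ncard := by
  classical
  have hfin : Finite (Matrix (Fin 3) (Fin 3) k) := inferInstance
  set S := (Set.toFinite {B : Matrix (Fin 3) (Fin 3) k |
    Bᵀ = B ∧ T (ia B, ib B, ic B) ∧ W B}).toFinset with hS
  set U := (Set.toFinite {t : k × k × k | T t}).toFinset with hU
  have e1 : {B : Matrix (Fin 3) (Fin 3) k | Bᵀ = B ∧ T (ia B, ib B, ic B) ∧ W B}.ncard =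
      S.card := Set.ncard_eq_toFinset_card _ _
  have e2 : {t : k × k × k | T t}.ncard = U.card := Set.ncard_eq_toFinset_card _ _
  rw [e1, e2]
  have e3 : S.card = ∑ t ∈ U, (S.filter fun B => (ia B, ib B, ic B) = t).card := by
    refine Finset.card_eq_sum_card_fiberwise ?_
    intro B hB
    have hB' := (Set.Finite.mem_toFinset _).1 hB
    exact (Set.Finite.mem_toFinset _).2 hB'.2.1
  rw [e3, Finset.mul_sum, mul_comm c, ← smul_eq_mul (U.card) c, ← Finset.sum_const]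
  refine Finset.sum_le_sum fun t ht => ?_
  have ht' : T t := (Set.Finite.mem_toFinset _).1 ht
  refine le_trans (Nat.mul_le_mul_left 2 ?_) (h t ht')
  rw [← Set.ncard_coe_finset]
  refine Set.ncard_le_ncard ?_ (Set.toFinite _)
  intro B hB
  have hB1 := Finset.mem_filter.1 (Finset.mem_coe.1 hB)
  have hB2 := (Set.Finite.mem_toFinset _).1 hB1.1
  obtain ⟨h1, -, h3⟩ := hB2
  have h4 := hB1.2
  refine ⟨⟨h1, ?_, ?_, ?_⟩, h3⟩
  · rw [← h4]
  · rw [← h4]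
  · rw [← h4]

variable {F : Type} [Field F]

lemma lift_lt {P : F[X]} (hP : P.Monic) (h1 : P ≠ 1) (x : AdjoinRoot P) :
    ∃ y : F[X], y.degree < P.degree ∧ AdjoinRoot.mk P y = x := by
  obtain ⟨y, rfl⟩ := AdjoinRoot.mk_surjective x
  refine ⟨y %ₘ P, degree_modByMonic_lt y hP, ?_⟩
  rw [AdjoinRoot.mk_eq_mk]
  refine ⟨-(y /ₘ P), ?_⟩
  have := modByMonic_add_div y P
  linear_combination this

lemma t12_iff {P : F[X]} (hPm : P.Monic) (hP : Irreducible P) (f : F[X] × F[X] × F[X]) :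
    T12P P f ↔ T12R (AdjoinRoot.mk P f.1, AdjoinRoot.mk P f.2.1, AdjoinRoot.mk P f.2.2) := by
  constructor
  · rintro ⟨e, β, γ, h1, h2, h3, h4, -⟩
    refine ⟨AdjoinRoot.mk P e, AdjoinRoot.mk P β, AdjoinRoot.mk P γ, ?_, ?_⟩
    · intro x hx
      obtain ⟨y, rfl⟩ := AdjoinRoot.mk_surjective x
      apply h1 y
      rw [← AdjoinRoot.mk_eq_zero, map_add, map_add, map_pow, map_mul]
      exact hx
    · refine Prod.ext ?_ (Prod.ext ?_ ?_)
      · show AdjoinRoot.mk P f.1 = AdjoinRoot.mk P β - AdjoinRoot.mk P e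
        rw [← map_sub, AdjoinRoot.mk_eq_mk]
        exact h2
      · show AdjoinRoot.mk P f.2.1 =
          AdjoinRoot.mk P γ - AdjoinRoot.mk P e * AdjoinRoot.mk P β
        rw [← map_mul, ← map_sub, AdjoinRoot.mk_eq_mk]
        exact h3
      · show AdjoinRoot.mk P f.2.2 = -(AdjoinRoot.mk P e * AdjoinRoot.mk P γ)
        rw [← map_mul, ← map_neg, AdjoinRoot.mk_eq_mk, sub_neg_eq_add]
        exact h4
  · rintro ⟨e, β, γ, h1, h2⟩
    have hne : P ≠ 1 := fun h => hP.not_isUnit (h ▸ isUnit_one)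
    obtain ⟨e', he, rfl⟩ := lift_lt hPm hne e
    obtain ⟨β', hβ, rfl⟩ := lift_lt hPm hne β
    obtain ⟨γ', hγ, rfl⟩ := lift_lt hPm hne γ
    have h3 := Prod.ext_iff.1 h2
    have h4 := Prod.ext_iff.1 h3.2
    have a1 : AdjoinRoot.mk P f.1 = AdjoinRoot.mk P β' - AdjoinRoot.mk P e' := h3.1
    have a2 : AdjoinRoot.mk P f.2.1 =
      AdjoinRoot.mk P γ' - AdjoinRoot.mk P e' * AdjoinRoot.mk P β' := h4.1
    have a3 : AdjoinRoot.mk P f.2.2 = -(AdjoinRoot.mk P e' * AdjoinRoot.mk P γ') := h4.2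
    rw [← map_sub, AdjoinRoot.mk_eq_mk] at a1
    rw [← map_mul, ← map_sub, AdjoinRoot.mk_eq_mk] at a2
    rw [← map_mul, ← map_neg, AdjoinRoot.mk_eq_mk, sub_neg_eq_add] at a3
    refine ⟨e', β', γ', ?_, a1, a2, a3, he, hβ, hγ⟩
    intro x hx
    apply h1 (AdjoinRoot.mk P x)
    rw [← map_pow, ← map_mul, ← map_add, ← map_add, AdjoinRoot.mk_eq_zero]
    exact hx

lemma tr_iff (P : F[X]) (B : Matrix (Fin 3) (Fin 3) F[X]) :
    TrP P B ↔ TrR (B.map (AdjoinRoot.mk P)) := by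
  constructor
  · rintro ⟨z, ⟨i, hi⟩, h1, h2⟩
    refine ⟨fun i => AdjoinRoot.mk P (z i), ?_, ?_, ?_⟩
    · intro h
      apply hi
      rw [← AdjoinRoot.mk_eq_zero]
      exact congrFun h i
    · rw [← TRV.AA_map (AdjoinRoot.mk P), TRV.bil_map, AdjoinRoot.mk_eq_zero]
      exact h1
    · rw [TRV.bil_map, AdjoinRoot.mk_eq_zero]
      exact h2
  · rintro ⟨z, h0, h1, h2⟩
    choose w hw using fun i => AdjoinRoot.mk_surjective (z i)
    have hz : z = fun i => AdjoinRoot.mk P (w i) := funext fun i => (hw i).symm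
    rw [hz] at h0 h1 h2
    rw [← TRV.AA_map (AdjoinRoot.mk P), TRV.bil_map, AdjoinRoot.mk_eq_zero] at h1
    rw [TRV.bil_map, AdjoinRoot.mk_eq_zero] at h2
    refine ⟨w, ?_, h1, h2⟩
    by_contra hcon
    push Not at hcon
    apply h0
    funext i
    exact AdjoinRoot.mk_eq_zero.2 (hcon i)

end CBP

theorem cbp_thm (hTCT : TCTStmt) (hFB3 : FB3Stmt) (hFB1 : FB1Stmt) : CBPStmt := by
  intro F _ _ h2 P hPm hP
  have : Fact (Irreducible P) := ⟨hP⟩
  obtain ⟨hfin, hcard⟩ := Pool.Agent.H15.AV3B.card_adj hPm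
  have h2' : (2 : AdjoinRoot P) ≠ 0 := by
    intro h
    have e1 : (algebraMap F (AdjoinRoot P)) 2 = (algebraMap F (AdjoinRoot P)) 0 := by
      rw [map_ofNat, map_zero]
      exact h
    exact h2 ((algebraMap F (AdjoinRoot P)).injective e1)
  set q : ℕ := Nat.card (AdjoinRoot P) with hq
  have hq1 : 1 ≤ q := Nat.card_pos
  have hT := hTCT (AdjoinRoot P)
  have h3 : (Nat.card F : ℝ) ^ (3 * P.natDegree) = (q : ℝ) ^ 3 := by
    rw [hcard, Nat.cast_pow, ← pow_mul, mul_comm]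
  have h22 : (Nat.card F : ℝ) ^ (2 * P.natDegree) = (q : ℝ) ^ 2 := by
    rw [hcard, Nat.cast_pow, ← pow_mul, mul_comm]
  have h11 : (Nat.card F : ℝ) ^ P.natDegree = (q : ℝ) := by
    rw [hcard, Nat.cast_pow]
  have l1 : q ^ 2 ≤ q ^ 3 := Nat.pow_le_pow_right hq1 (by norm_num)
  have l2 : q ≤ q ^ 3 := Nat.le_self_pow (by norm_num) q
  have hTr : 2 * ({t : AdjoinRoot P × AdjoinRoot P × AdjoinRoot P | T12R t}.ncard : ℝ) =
      (q : ℝ) ^ 3 - (q : ℝ) ^ 2 := by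
    have : ((2 * {t : AdjoinRoot P × AdjoinRoot P × AdjoinRoot P | T12R t}.ncard : ℕ) : ℝ) =
        ((q ^ 3 - q ^ 2 : ℕ) : ℝ) := congrArg _ hT
    rw [Nat.cast_sub l1] at this
    push_cast at this
    exact this
  have fin : ∀ W : Matrix (Fin 3) (Fin 3) (AdjoinRoot P) → Prop,
      (∀ t : AdjoinRoot P × AdjoinRoot P × AdjoinRoot P, T12R t →
        2 * {B : Matrix (Fin 3) (Fin 3) (AdjoinRoot P) |
          B ∈ Fb t.1 t.2.1 t.2.2 ∧ W B}.ncard ≤ q ^ 3 - q) →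
      4 * ({B : Matrix (Fin 3) (Fin 3) (AdjoinRoot P) | Bᵀ = B ∧ T12R (ia B, ib B, ic B) ∧
        W B}.ncard : ℝ) ≤ ((q : ℝ) ^ 3 - q) * ((q : ℝ) ^ 3 - (q : ℝ) ^ 2) := by
    intro W hW
    have e1 := CBP.count T12R W (q ^ 3 - q) hW
    have e2 : ((2 * {B : Matrix (Fin 3) (Fin 3) (AdjoinRoot P) | Bᵀ = B ∧
        T12R (ia B, ib B, ic B) ∧ W B}.ncard : ℕ) : ℝ) ≤
        (((q ^ 3 - q) * {t : AdjoinRoot P × AdjoinRoot P × AdjoinRoot P |
          T12R t}.ncard : ℕ) : ℝ) := by exact_mod_cast e1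
    rw [Nat.cast_mul (q ^ 3 - q), Nat.cast_sub l2] at e2
    push_cast at e2
    rw [← hTr]
    linarith
  refine ⟨CBP.t12_iff hPm hP, CBP.tr_iff P, ?_, ?_, ?_⟩
  · rw [h3, h22]
    exact hTr
  · rw [h3, h22, h11]
    exact fin TrR fun t ht => hFB1 (AdjoinRoot P) h2' t ht
  · rw [h3, h22, h11]
    exact fin (fun B => ¬ TrR B) fun t ht => hFB3 (AdjoinRoot P) h2' t ht

end Pool.PRL
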