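import Pool.Agent.H75.PRL.S1
import Pool.Agent.H77.RZ.USE
import Pool.Agent.H69.AVS.POL
import Pool.Agent.H40.PRL.TYQ

/-!
# The Poonen-Rains law, module LCC: the lattice of a class of type `(1, 1)`
-/

set_option autoImplicit false

namespace Pool.PRL

open Polynomial Matrix Pool.AVR Pool.AVS Pool.RZ

namespace LCC

variable {F : Type} [Field F]

lemma sqM_iff (P a : F[X]) : SqM P a ↔ ∃ w : AdjoinRoot P, AdjoinRoot.mk P a = w ^ 2 := by
  constructor
  · rintro ⟨w, hw⟩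
    refine ⟨AdjoinRoot.mk P w, ?_⟩
    rw [← map_pow, AdjoinRoot.mk_eq_mk]
    exact hw
  · rintro ⟨w, hw⟩
    obtain ⟨v, rfl⟩ := AdjoinRoot.mk_surjective w
    refine ⟨v, ?_⟩
    rw [← map_pow, AdjoinRoot.mk_eq_mk] at hw
    exact hw

lemma mk_ne {P a : F[X]} (h : ¬ P ∣ a) : AdjoinRoot.mk P a ≠ 0 := fun h' =>
  h (AdjoinRoot.mk_eq_zero.1 h')

/-- The square classes. -/
lemma sq_class {P : F[X]} (hP : Irreducible P) {ν₁ ν νq pe Q w : F[X]} (h1 : ¬ P ∣ ν₁)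
    (h2 : SqM P ν₁) (h3 : P ∣ ν - pe * νq) (h4 : ¬ P ∣ νq) (h5 : ν₁ * ν = w ^ 2)
    (h6 : SqM P (νq * Q)) : SqM P (pe * Q) := by
  have : Fact (Irreducible P) := ⟨hP⟩
  rw [sqM_iff] at h2 h6 ⊢
  obtain ⟨u, hu⟩ := h2
  obtain ⟨v, hv⟩ := h6
  have hn1 := mk_ne h1
  have hn2 := mk_ne h4
  have hu0 : u ≠ 0 := by
    rintro rfl
    rw [hu] at hn1
    exact hn1 (by ring)
  have h7 : AdjoinRoot.mk P ν = AdjoinRoot.mk P pe * AdjoinRoot.mk P νq := by
    rw [← map_mul, AdjoinRoot.mk_eq_mk]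
    exact h3
  have h8 : u ^ 2 * AdjoinRoot.mk P ν = AdjoinRoot.mk P w ^ 2 := by
    rw [← hu, ← map_mul, h5, map_pow]
  rw [map_mul] at hv
  refine ⟨AdjoinRoot.mk P w * v / (u * AdjoinRoot.mk P νq), ?_⟩
  rw [div_pow, map_mul, eq_div_iff (pow_ne_zero 2 (mul_ne_zero hu0 hn2)), mul_pow, mul_pow, ← hv,
    ← h8, h7]
  ring

lemma dvd_iff {P : F[X]} (hP : Irreducible P) (p : F[X]) : rf p / rf P ∈ IP P ↔ P ∣ p := by
  have := (AVS.POL.part3 P p hP).2 1
  rw [pow_one, pow_one] at this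
  exact this

lemma frac {P : F[X]} {x : RatFunc F} (hx : x ∈ IP P) :
    ∃ a b : F[X], ¬ P ∣ b ∧ x * rf b = rf a := by
  refine ⟨x.num, x.denom, hx, ?_⟩
  have hd0 : rf x.denom ≠ 0 := RatFunc.algebraMap_ne_zero x.denom_ne_zero
  rw [← eq_div_iff hd0]
  exact (RatFunc.num_div_denom x).symm

lemma div_mem {P : F[X]} {x : RatFunc F} {a b : F[X]} (hP : Irreducible P) (hb : ¬ P ∣ b)
    (h : x * rf b = rf a) (ha : P ∣ a) : x / rf P ∈ IP P := by
  obtain ⟨c, rfl⟩ := ha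
  have hP0 : rf P ≠ 0 := RatFunc.algebraMap_ne_zero hP.ne_zero
  obtain ⟨hb0, _, hb2⟩ := USE.UI_rf hP hb
  have h1 : x / rf P = rf c * (rf b)⁻¹ := by
    have h2 : x * rf b = rf P * rf c := by rw [h, rf, map_mul]
    field_simp
    linear_combination h2
  rw [h1]
  exact (AVS.POL.part2 P hP _ _ (USE.IP_rf hP c) hb2).2.1

/-- The norm of `vp p` gives a square. -/
lemma norm_sq {P : F[X]} {f : F[X] × F[X] × F[X]} (hP : Irreducible P) {h s : (RatFunc F)[X]}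
    {q p : F[X][X]} {ν₁ ν : F[X]}
    (hN : IsSquare (Algebra.norm (RatFunc F) (AdjoinRoot.mk (cubK f) h)))
    (hs : cubK f ∣ h * s ^ 2 - lf (q * p))
    (h1 : Algebra.norm (RatFunc F) (AdjoinRoot.mk (cubK f) (lf q)) = rf (P ^ 2 * ν₁))
    (h2 : Algebra.norm (RatFunc F) (AdjoinRoot.mk (cubK f) (lf p)) = rf ν) :
    ∃ w : F[X], ν₁ * ν = w ^ 2 := by
  obtain ⟨r, hr⟩ := hN
  have hP0 : rf P ≠ 0 := RatFunc.algebraMap_ne_zero hP.ne_zero
  have e1 : AdjoinRoot.mk (cubK f) (h * s ^ 2) = AdjoinRoot.mk (cubK f) (lf (q * p)) :=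
    AdjoinRoot.mk_eq_mk.2 hs
  have e2 := congrArg (Algebra.norm (RatFunc F)) e1
  have e3 : lf (q * p) = lf q * lf p := Polynomial.map_mul _
  rw [e3, map_mul, map_mul, map_mul, map_mul, map_pow, map_pow, hr, h1, h2] at e2
  set N := Algebra.norm (RatFunc F) (AdjoinRoot.mk (cubK f) s) with hNs
  have e4 : (r * N / rf P) ^ 2 = rf (ν₁ * ν) := by
    rw [div_pow, div_eq_iff (pow_ne_zero 2 hP0)]
    have e5 : rf (P ^ 2 * ν₁) = rf P ^ 2 * rf ν₁ := by rw [rf, map_mul, map_pow]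
    have e6 : rf (ν₁ * ν) = rf ν₁ * rf ν := by rw [rf, map_mul]
    rw [e5] at e2
    rw [e6]
    linear_combination e2
  have e7 : IsIntegral F[X] ((r * N / rf P) ^ 2) := by
    rw [e4]
    exact isIntegral_algebraMap
  have e8 : IsIntegral F[X] (r * N / rf P) := IsIntegral.of_pow (by norm_num) e7
  obtain ⟨w, hw⟩ := IsIntegrallyClosed.isIntegral_iff.1 e8
  refine ⟨w, ?_⟩
  apply RatFunc.algebraMap_injective F
  rw [map_pow, hw]
  exact e4.symm

end LCC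

theorem lcc_thm (hQFP : QFPStmt) (hPLP : PLPStmt) (hSPU : SPUStmt) : LCCStmt := by
  intro F _ _ h2 P f hPm hP h hc hN hT
  obtain ⟨e, β, γ, s, p, hSpl, hdv, hUn, hty⟩ := hT
  have hv : (((1, 1) : Ty).1).val = 1 := rfl
  rw [hv, pow_one] at hdv hty
  have hns : ¬ SqM P (p.eval e * (e ^ 2 + β * e + γ)) := by
    intro h'
    have : ((1 : ZMod 2)) = 0 := hty.2 h'
    exact absurd this (by decide)
  obtain ⟨-, hS⟩ := hSPU F P f hPm hP
  obtain ⟨-, -, -, -, ν₁, hν₁, hν₁P, hν₁S⟩ := hS e β γ hSpl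
  obtain ⟨M, N, νq, hMN, hνq, -, ⟨ν, hν, hνP⟩, hcase⟩ := hQFP F h2 P f hPm hP e β γ hSpl p hUn
  obtain ⟨w, hw⟩ := LCC.norm_sq hP hN hdv hν₁ hν
  have hA : ∀ v : Fin 2 → F[X], P ∣ bil2 M v v → ∀ i, P ∣ v i := by
    rcases hcase with hcase | hcase
    · exact hcase.2
    · exact absurd (LCC.sq_class hP hν₁P hν₁S hνP hνq hw hcase.1) hns
  obtain ⟨g, G, B, hdet, hG, -, hG00, hG0, hGij⟩ := hPLP F h2 P f hPm hP e β γ hSpl h s p hc hUn hdv
  have hP0 : rf P ≠ 0 := RatFunc.algebraMap_ne_zero hP.ne_zero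
  -- the entries of `M`
  have hM : ∀ i j : Fin 2, ∃ x : F[X], G i.succ j.succ = P * x ∧ P ∣ x - M i j := by
    intro i j
    obtain ⟨x, y, hx, -, hx', -⟩ := hGij i j
    refine ⟨x, hx, ?_⟩
    rw [← (hMN i j).1] at hx'
    have e1 : rf x - rf (M i j) = rf (x - M i j) :=
      (map_sub (algebraMap F[X] (RatFunc F)) _ _).symm
    rw [e1] at hx'
    exact (LCC.dvd_iff hP _).1 hx'
  have hM10 : M 1 0 = M 0 1 := by
    apply RatFunc.algebraMap_injective F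
    have e1 := (hMN 1 0).1
    have e2 := (hMN 0 1).1
    exact e1.trans e2.symm
  -- the entries of `G`
  have hGs : ∀ i j, G i j = G j i := by
    intro i j
    apply RatFunc.algebraMap_injective F
    have e1 : (gᵀ * g0 f h * g)ᵀ = gᵀ * g0 f h * g := by
      rw [Matrix.transpose_mul, Matrix.transpose_mul, Matrix.transpose_transpose,
        TYQ.gr0_symm, Matrix.mul_assoc]
    rw [hG] at e1
    exact (congrFun (congrFun e1 i) j).symm
  have hGd : ∀ i j : Fin 3, ¬ (i = 0 ∧ j = 0) → P ∣ G i j := by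
    intro i j hij
    refine Fin.cases ?_ (fun i' => ?_) i hij
    · intro hij
      refine Fin.cases ?_ (fun j' => ?_) j hij
      · intro h'
        exact absurd ⟨rfl, rfl⟩ h'
      · intro _
        exact (hG0 j').1
    · intro _
      refine Fin.cases ?_ (fun j' => ?_) j
      · rw [hGs]
        exact (hG0 i').1
      · obtain ⟨x, hx, -⟩ := hM i' j'
        rw [hx]
        exact dvd_mul_right _ _
  refine ⟨g, hdet, ?_, ?_, ?_⟩
  · rw [hG]
    exact USE.UI_rf hP hG00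
  · intro i j hij
    rw [hG]
    exact (LCC.dvd_iff hP _).2 (hGd i j hij)
  · intro x y hx hy hxy
    rw [hG] at hxy
    obtain ⟨x0, hx0, hx0'⟩ := hM 0 0
    obtain ⟨x1, hx1, hx1'⟩ := hM 0 1
    obtain ⟨x2, hx2, hx2'⟩ := hM 1 1
    obtain ⟨a, b, hb, hab⟩ := LCC.frac hx
    obtain ⟨a', b', hb', hab'⟩ := LCC.frac hy
    have g11 : (G.map (algebraMap F[X] (RatFunc F))) 1 1 = rf P * rf x0 := by
      show rf (G 1 1) = _
      have : G 1 1 = P * x0 := hx0
      rw [this, rf, map_mul]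
    have g12 : (G.map (algebraMap F[X] (RatFunc F))) 1 2 = rf P * rf x1 := by
      show rf (G 1 2) = _
      have : G 1 2 = P * x1 := hx1
      rw [this, rf, map_mul]
    have g22 : (G.map (algebraMap F[X] (RatFunc F))) 2 2 = rf P * rf x2 := by
      show rf (G 2 2) = _
      have : G 2 2 = P * x2 := hx2
      rw [this, rf, map_mul]
    rw [g11, g12, g22] at hxy
    have k1 : ((rf P * rf x0 * x ^ 2 + 2 * (rf P * rf x1) * (x * y) + rf P * rf x2 * y ^ 2) /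
        rf P ^ 2) * rf ((b * b') ^ 2) =
        rf (x0 * (a * b') ^ 2 + 2 * x1 * ((a * b') * (a' * b)) + x2 * (a' * b) ^ 2) / rf P := by
      rw [div_mul_eq_mul_div, div_eq_div_iff (pow_ne_zero 2 hP0) hP0]
      simp only [rf, map_add, map_mul, map_pow, map_ofNat] at hab hab' ⊢
      rw [← hab, ← hab']
      ring
    have k2 := (AVS.POL.part2 P hP _ _ hxy (USE.IP_rf hP ((b * b') ^ 2))).2.1
    rw [k1] at k2
    have k3 := (LCC.dvd_iff hP _).1 k2
    have k4 : P ∣ bil2 M ![a * b', a' * b] ![a * b', a' * b] := by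
      have k5 : bil2 M ![a * b', a' * b] ![a * b', a' * b] =
          M 0 0 * (a * b') ^ 2 + 2 * M 0 1 * ((a * b') * (a' * b)) + M 1 1 * (a' * b) ^ 2 := by
        unfold bil2
        simp [Matrix.mulVec, dotProduct, Fin.sum_univ_two, hM10]
        ring
      rw [k5]
      obtain ⟨c0, hc0⟩ := hx0'
      obtain ⟨c1, hc1⟩ := hx1'
      obtain ⟨c2, hc2⟩ := hx2'
      obtain ⟨c3, hc3⟩ := k3
      refine ⟨c3 - c0 * (a * b') ^ 2 - 2 * c1 * ((a * b') * (a' * b)) - c2 * (a' * b) ^ 2, ?_⟩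
      linear_combination hc3 - (a * b') ^ 2 * hc0 - 2 * ((a * b') * (a' * b)) * hc1 -
        (a' * b) ^ 2 * hc2
    have k6 := hA _ k4
    have k7 : P ∣ a * b' := k6 0
    have k8 : P ∣ a' * b := k6 1
    have k9 : P ∣ a := (hP.prime.dvd_or_dvd k7).resolve_right hb'
    have k10 : P ∣ a' := (hP.prime.dvd_or_dvd k8).resolve_right hb
    exact ⟨LCC.div_mem hP hb hab k9, LCC.div_mem hP hb' hab' k10⟩

end Pool.PRL
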